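import Mathlib
import Pool.Agent.Helper1_PGH.Steps

/-!
# Squad PPZ, module PEN, part A: ultraproducts of fields
-/

set_option autoImplicit false

universe u

open Filter Polynomial

namespace Pool.Agent.PPZ.H67

section UP

variable {ι : Type u} (U : Ultrafilter ι) (E : ι → Type u) [∀ i, Field (E i)]

/-- the ideal of the sequences which vanish almost everywhere -/
def nul : Ideal (∀ i, E i) where
  carrier := {f | ∀ᶠ i in (U : Filter ι), f i = 0}
  zero_mem' := Eventually.of_forall fun _ => rfl
  add_mem' := by
    intro f g hf hg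
    filter_upwards [hf, hg] with i h1 h2
    rw [Pi.add_apply, h1, h2, add_zero]
  smul_mem' := by
    intro c f hf
    filter_upwards [hf] with i h1
    rw [smul_eq_mul, Pi.mul_apply, h1, mul_zero]

theorem mem_nul {f : ∀ i, E i} : f ∈ nul U E ↔ ∀ᶠ i in (U : Filter ι), f i = 0 := Iff.rfl

instance nul_isMaximal : (nul U E).IsMaximal := by
  rw [Ideal.isMaximal_iff]
  constructor
  · intro h
    rw [mem_nul] at h
    obtain ⟨i, hi⟩ := h.exists
    exact one_ne_zero hi
  · intro J f hJ hf hfJ
    rw [mem_nul] at hf
    have hf' : ∀ᶠ i in (U : Filter ι), f i ≠ 0 := Ultrafilter.eventually_not.2 hf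
    have h1 : (1 - f⁻¹ * f : ∀ i, E i) ∈ nul U E := by
      rw [mem_nul]
      filter_upwards [hf'] with i hi
      rw [Pi.sub_apply, Pi.mul_apply, Pi.inv_apply, Pi.one_apply, inv_mul_cancel₀ hi, sub_self]
    have h2 := J.add_mem (hJ h1) (J.mul_mem_left f⁻¹ hfJ)
    rwa [sub_add_cancel] at h2

/-- the ultraproduct -/
def UP : Type u := (∀ i, E i) ⧸ nul U E

noncomputable instance : Field (UP U E) := Ideal.Quotient.field (nul U E)

/-- the germ of a sequence -/
noncomputable def mk : (∀ i, E i) →+* UP U E := Ideal.Quotient.mk (nul U E)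

variable {U E}

theorem mk_surjective : Function.Surjective (mk U E) := Ideal.Quotient.mk_surjective

theorem mk_eq {f g : ∀ i, E i} : mk U E f = mk U E g ↔ ∀ᶠ i in (U : Filter ι), f i = g i := by
  refine (Ideal.Quotient.eq (I := nul U E) (x := f) (y := g)).trans ?_
  rw [mem_nul]
  constructor <;> intro h <;> filter_upwards [h] with i hi
  · exact sub_eq_zero.1 hi
  · exact sub_eq_zero.2 hi

theorem mk_eq_zero {f : ∀ i, E i} : mk U E f = 0 ↔ ∀ᶠ i in (U : Filter ι), f i = 0 := by
  rw [← map_zero (mk U E), mk_eq]
  rfl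

theorem mk_ne_zero {f : ∀ i, E i} : mk U E f ≠ 0 ↔ ∀ᶠ i in (U : Filter ι), f i ≠ 0 := by
  rw [Ne, mk_eq_zero]
  exact Ultrafilter.eventually_not.symm

theorem mk_inv (f : ∀ i, E i) : mk U E f⁻¹ = (mk U E f)⁻¹ := by
  by_cases h : mk U E f = 0
  · rw [h, inv_zero, mk_eq_zero]
    rw [mk_eq_zero] at h
    filter_upwards [h] with i hi
    rw [Pi.inv_apply, hi, inv_zero]
  · apply eq_inv_of_mul_eq_one_left
    rw [← map_mul, ← map_one (mk U E), mk_eq]
    have h' := mk_ne_zero.1 h
    filter_upwards [h'] with i hi
    rw [Pi.mul_apply, Pi.inv_apply, inv_mul_cancel₀ hi]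
    rfl

section alg

variable (k : Type u) [Field k] [∀ i, Algebra k (E i)]

noncomputable instance : Algebra k (UP U E) :=
  ((mk U E).comp (RingHom.pi fun i => algebraMap k (E i))).toAlgebra

theorem algebraMap_eq (c : k) :
    algebraMap k (UP U E) c = mk U E (fun i => algebraMap k (E i) c) := rfl

include k in
theorem up_charZero [CharZero k] : CharZero (UP U E) :=
  charZero_of_injective_algebraMap (algebraMap k (UP U E)).injective

end alg

/-- the germs of the derivatives -/
noncomputable def dst₀ (D : ∀ i, Derivation ℤ (E i) (E i)) : (∀ i, E i) →+ UP U E where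
  toFun w := mk U E (fun i => D i (w i))
  map_zero' := by
    rw [mk_eq_zero]
    exact Eventually.of_forall fun i => by rw [Pi.zero_apply, map_zero]
  map_add' := by
    intro w w'
    rw [← map_add]
    congr 1
    funext i
    rw [Pi.add_apply, Pi.add_apply, map_add]

/-- the germ of a sequence of derivations, as an additive map -/
noncomputable def dst₁ (D : ∀ i, Derivation ℤ (E i) (E i)) : UP U E →+ UP U E :=
  QuotientAddGroup.lift (nul U E).toAddSubgroup (dst₀ D) (by
    intro w hw
    have hw' : ∀ᶠ i in (U : Filter ι), w i = 0 := hw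
    change mk U E (fun i => D i (w i)) = 0
    rw [mk_eq_zero]
    filter_upwards [hw'] with i hi
    rw [hi, map_zero])

theorem dst₁_mk (D : ∀ i, Derivation ℤ (E i) (E i)) (w : ∀ i, E i) :
    dst₁ (U := U) D (mk U E w) = mk U E (fun i => D i (w i)) := rfl

/-- the germ of a sequence of derivations, as a linear map -/
noncomputable def dst₂ (D : ∀ i, Derivation ℤ (E i) (E i)) : UP U E →ₗ[ℤ] UP U E :=
  (dst₁ D).toIntLinearMap

/-- the germ of a sequence of derivations -/
noncomputable def dst (D : ∀ i, Derivation ℤ (E i) (E i)) : Derivation ℤ (UP U E) (UP U E) where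
  toLinearMap := dst₂ D
  map_one_eq_zero' := by
    change dst₁ D 1 = 0
    rw [← map_one (mk U E), dst₁_mk, mk_eq_zero]
    exact Eventually.of_forall fun i => by rw [Pi.one_apply, Derivation.map_one_eq_zero]
  leibniz' := by
    intro a b
    obtain ⟨a, rfl⟩ := mk_surjective a
    obtain ⟨b, rfl⟩ := mk_surjective b
    change dst₁ D (mk U E a * mk U E b) = mk U E a • dst₁ D (mk U E b) + mk U E b • dst₁ D (mk U E a)
    rw [← map_mul, dst₁_mk, dst₁_mk, dst₁_mk, smul_eq_mul, smul_eq_mul, ← map_mul, ← map_mul,
      ← map_add]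
    congr 1
    funext i
    rw [Pi.mul_apply, Derivation.leibniz]
    rfl

theorem dst_mk (D : ∀ i, Derivation ℤ (E i) (E i)) (w : ∀ i, E i) :
    dst (U := U) D (mk U E w) = mk U E (fun i => D i (w i)) := rfl

end UP

/-! ### The ultrapower of the constants -/

section Cs

variable {ι : Type u} (U : Ultrafilter ι) (k : Type u) [Field k]

/-- the ultrapower of the constants -/
def Cs : Type u := UP U (fun _ : ι => k)

noncomputable instance : Field (Cs U k) := inferInstanceAs (Field (UP U (fun _ : ι => k)))

/-- the germ of a sequence of constants -/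
noncomputable def cmk : (ι → k) →+* Cs U k := mk U (fun _ : ι => k)

variable {U k}

theorem cmk_surjective : Function.Surjective (cmk U k) := mk_surjective

theorem cmk_eq {f g : ι → k} : cmk U k f = cmk U k g ↔ ∀ᶠ i in (U : Filter ι), f i = g i := mk_eq

theorem cmk_eq_zero {f : ι → k} : cmk U k f = 0 ↔ ∀ᶠ i in (U : Filter ι), f i = 0 := mk_eq_zero

noncomputable instance : Algebra k (Cs U k) := ((cmk U k).comp (Pi.constRingHom ι k)).toAlgebra

theorem cs_algebraMap (c : k) : algebraMap k (Cs U k) c = cmk U k (fun _ => c) := rfl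

instance [CharZero k] : CharZero (Cs U k) :=
  charZero_of_injective_algebraMap (algebraMap k (Cs U k)).injective

instance [IsAlgClosed k] : IsAlgClosed (Cs U k) := by
  apply IsAlgClosed.of_exists_root
  intro p hp hirr
  have hc : ∀ j, ∃ f : ι → k, cmk U k f = p.coeff j := fun j => cmk_surjective _
  choose f hf using hc
  have hdeg : 0 < p.natDegree := hirr.natDegree_pos
  let q : ι → Polynomial k := fun n => X ^ p.natDegree +
    ∑ j ∈ Finset.range p.natDegree, C (f j n) * X ^ j
  have hq : ∀ n, ∃ x : k, (q n).eval x = 0 := by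
    intro n
    apply IsAlgClosed.exists_root
    have h1 : (∑ j ∈ Finset.range p.natDegree, C (f j n) * X ^ j).degree <
        ((X : Polynomial k) ^ p.natDegree).degree := by
      rw [degree_X_pow]
      refine lt_of_le_of_lt (degree_sum_le _ _) ?_
      rw [Finset.sup_lt_iff (by simp)]
      intro j hj
      refine lt_of_le_of_lt (degree_C_mul_X_pow_le _ _) ?_
      exact_mod_cast Finset.mem_range.1 hj
    change degree (X ^ p.natDegree + ∑ j ∈ Finset.range p.natDegree, C (f j n) * X ^ j) ≠ 0
    rw [degree_add_eq_left_of_degree_lt h1, degree_X_pow]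
    exact_mod_cast hdeg.ne'
  choose x hx using hq
  refine ⟨cmk U k x, ?_⟩
  have h1 : p = X ^ p.natDegree + ∑ j ∈ Finset.range p.natDegree, C (p.coeff j) * X ^ j :=
    hp.as_sum
  rw [h1, eval_add, eval_finsetSum, eval_pow, eval_X]
  simp only [eval_mul, eval_C, eval_pow, eval_X, ← hf, ← map_pow, ← map_mul, ← map_sum, ← map_add]
  rw [cmk_eq_zero]
  refine Eventually.of_forall (fun n => ?_)
  have := hx n
  simp only [q, eval_add, eval_finsetSum, eval_mul, eval_C, eval_pow, eval_X] at this
  simpa using this

variable (U k) (E : ι → Type u) [∀ i, Field (E i)] [∀ i, Algebra k (E i)]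

/-- the inclusion of the ultrapower of the constants -/
noncomputable def cmap : Cs U k →+* UP U E :=
  Ideal.Quotient.lift (nul U (fun _ : ι => k))
    ((mk U E).comp (RingHom.pi fun i => (algebraMap k (E i)).comp (Pi.evalRingHom (fun _ : ι => k) i)))
    (by
      intro f hf
      have hf' : ∀ᶠ i in (U : Filter ι), f i = 0 := hf
      change mk U E (fun i => algebraMap k (E i) (f i)) = 0
      rw [mk_eq_zero]
      filter_upwards [hf'] with i hi
      rw [hi, map_zero])

variable {U k E}

theorem cmap_cmk (f : ι → k) : cmap U k E (cmk U k f) = mk U E (fun i => algebraMap k (E i) (f i)) :=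
  rfl

theorem cmap_algebraMap (c : k) : cmap U k E (algebraMap k (Cs U k) c) = algebraMap k (UP U E) c :=
  rfl

end Cs

/-! ### An algebraically closed field between -/

/-- A transcendental element of an algebraically closed field lies in an algebraically closed field
which is algebraic over the field generated by it. -/
theorem exists_closure {k Ω : Type u} [Field k] [Field Ω] [Algebra k Ω] [IsAlgClosed Ω] (φ : Ω)
    (hφ : Transcendental k φ) : ∃ (L : Type u) (_ : Field L) (_ : Algebra k L) (j : L →ₐ[k] Ω)
      (φ₁ : L), IsAlgClosed L ∧ j φ₁ = φ ∧ Transcendental k φ₁ ∧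
      ∀ c : L, IsAlgebraic (IntermediateField.adjoin k {φ₁}) c := by
  let F := IntermediateField.adjoin k {φ}
  let L := AlgebraicClosure F
  let j₀ : L →ₐ[F] Ω := IsAlgClosed.lift
  let φ₀ : F := IntermediateField.AdjoinSimple.gen k φ
  let φ₁ : L := algebraMap F L φ₀
  have hj : (j₀.restrictScalars k) φ₁ = φ := by
    change j₀ (algebraMap F L φ₀) = φ
    rw [j₀.commutes]
    rfl
  refine ⟨L, inferInstance, inferInstance, j₀.restrictScalars k, φ₁, inferInstance, hj, ?_, ?_⟩
  · intro h
    apply hφ
    rw [← hj]
    exact h.algHom _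
  · intro c
    have hc : IsAlgebraic F c := Algebra.IsAlgebraic.isAlgebraic c
    have hmem : ∀ y : F, algebraMap F L y ∈ IntermediateField.adjoin k {φ₁} := by
      rintro ⟨y, hy⟩
      induction hy using IntermediateField.adjoin_induction with
      | mem z hz =>
        rw [Set.mem_singleton_iff] at hz
        subst hz
        exact IntermediateField.subset_adjoin k _ rfl
      | algebraMap c =>
        exact IntermediateField.algebraMap_mem _ c
      | add a b ha hb h1 h2 =>
        rw [show (⟨a + b, _⟩ : F) = ⟨a, ha⟩ + ⟨b, hb⟩ from rfl, map_add]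
        exact add_mem h1 h2
      | mul a b ha hb h1 h2 =>
        rw [show (⟨a * b, _⟩ : F) = ⟨a, ha⟩ * ⟨b, hb⟩ from rfl, map_mul]
        exact mul_mem h1 h2
      | inv a ha h1 =>
        rw [show (⟨a⁻¹, _⟩ : F) = (⟨a, ha⟩ : F)⁻¹ from rfl, map_inv₀]
        exact inv_mem h1
    let f : F →+* IntermediateField.adjoin k {φ₁} :=
      (algebraMap F L).codRestrict (IntermediateField.adjoin k {φ₁}) hmem
    exact hc.ringHom_of_comp_eq f (RingHom.id L) f.injective rfl

end Pool.Agent.PPZ.H67
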