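import Mathlib
import Pool.Agent.Helper1_PGH.Steps

/-!
# Squad PPZ, module PEN, part B: derivations
-/

set_option autoImplicit false

universe u

open IntermediateField PGH

namespace Pool.Agent.PPZ.H67

/-- A derivation which kills a field kills everything algebraic over it. -/
theorem kill {A B M : Type*} [Field A] [Field B] [Algebra A B] [CharZero A] [AddCommGroup M]
    [Module B M] (F : Derivation ℤ B M) (hA : ∀ a : A, F (algebraMap A B a) = 0) {w : B}
    (hw : IsAlgebraic A w) : F w = 0 := by
  let _ : Module A M := Module.compHom M (algebraMap A B)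
  have : IsScalarTower A B M := ⟨fun a b m => by
    rw [Algebra.smul_def, mul_smul]; rfl⟩
  let F' : Derivation A B M := Derivation.mk'
    { toFun := F
      map_add' := fun a b => map_add F a b
      map_smul' := fun c a => by
        rw [Algebra.smul_def, F.leibniz, hA, smul_zero, add_zero]; rfl }
    (fun a b => F.leibniz a b)
  have h1 : IsIntegral A w := hw.isIntegral
  have h2 : Polynomial.aeval w (minpoly A w) = 0 := minpoly.aeval A w
  have h3 : Polynomial.aeval w (Polynomial.derivative (minpoly A w)) ≠ 0 :=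
    (minpoly.irreducible h1).separable.aeval_derivative_ne_zero h2
  have h4 : F' (Polynomial.aeval w (minpoly A w)) =
      Polynomial.aeval w (Polynomial.derivative (minpoly A w)) • F' w := by
    rw [Derivation.map_aeval]
  rw [h2, map_zero] at h4
  have h5 : F' w = 0 := (smul_eq_zero.1 h4.symm).resolve_left h3
  exact h5

/-- the kernel of a derivation -/
def kf {B M : Type*} [Field B] [AddCommGroup M] [Module B M] (F : Derivation ℤ B M) :
    Subfield B where
  carrier := {w | F w = 0}
  zero_mem' := by simp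
  one_mem' := by simp
  add_mem' := fun {a b} ha hb => by
    change F (a + b) = 0
    rw [map_add, show F a = 0 from ha, show F b = 0 from hb, add_zero]
  mul_mem' := fun {a b} ha hb => by
    change F (a * b) = 0
    rw [F.leibniz, show F a = 0 from ha, show F b = 0 from hb, smul_zero, smul_zero, add_zero]
  neg_mem' := fun {a} ha => by
    change F (-a) = 0
    rw [map_neg, show F a = 0 from ha, neg_zero]
  inv_mem' := fun a ha => by
    change F a⁻¹ = 0
    rw [F.leibniz_inv, show F a = 0 from ha, smul_zero]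

theorem mem_kf {B M : Type*} [Field B] [AddCommGroup M] [Module B M] {F : Derivation ℤ B M}
    {w : B} : w ∈ kf F ↔ F w = 0 := Iff.rfl

theorem kf_alg {B M : Type*} [Field B] [CharZero B] [AddCommGroup M] [Module B M]
    (F : Derivation ℤ B M) {w : B} (hw : IsAlgebraic (kf F) w) : F w = 0 :=
  kill F (fun a => a.2) hw

/-- `θ` is algebraic over the field generated by `x` and `z`, and `Φ` lies in the field generated
by `x`, `z`, `θ`. -/
structure Gen (k : Type*) {K : Type*} [Field k] [Field K] [Algebra k K] (x z θ Φ : K) : Prop where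
  alg : ∀ S : Subfield K, (∀ c : k, algebraMap k K c ∈ S) → x ∈ S → z ∈ S → IsAlgebraic S θ
  mem : ∀ S : Subfield K, (∀ c : k, algebraMap k K c ∈ S) → x ∈ S → z ∈ S → θ ∈ S → Φ ∈ S

theorem Gen.kill {k K B M : Type*} [Field k] [Field K] [Algebra k K] [Field B] [CharZero B]
    [AddCommGroup M] [Module B M] {x z θ Φ : K} (hG : Gen k x z θ Φ) (j : B →+* K)
    (F : Derivation ℤ B M) (hk : ∀ c : k, ∃ b, j b = algebraMap k K c ∧ F b = 0)
    {x₁ z₁ θ₁ Φ₁ : B} (hx : j x₁ = x) (hz : j z₁ = z) (hθ : j θ₁ = θ) (hΦ : j Φ₁ = Φ)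
    (hFx : F x₁ = 0) (hFz : F z₁ = 0) : F Φ₁ = 0 := by
  let S : Subfield K := (kf F).map j
  have hS : ∀ b, F b = 0 → j b ∈ S := fun b hb => ⟨b, hb, rfl⟩
  have hkS : ∀ c : k, algebraMap k K c ∈ S := by
    intro c
    obtain ⟨b, hb, hb'⟩ := hk c
    rw [← hb]
    exact hS b hb'
  have hxS : x ∈ S := hx ▸ hS _ hFx
  have hzS : z ∈ S := hz ▸ hS _ hFz
  have h1 := hG.alg S hkS hxS hzS
  have hFθ : F θ₁ = 0 := by
    apply kf_alg F
    let f : kf F →+* S := (j.comp (kf F).subtype).codRestrict S (fun a => hS _ a.2)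
    have hf : Function.Surjective f := by
      rintro ⟨s, a, ha, rfl⟩
      exact ⟨⟨a, ha⟩, rfl⟩
    rw [← hθ] at h1
    exact h1.of_ringHom_of_comp_eq f j hf j.injective rfl
  have h2 := hG.mem S hkS hxS hzS (hθ ▸ hS _ hFθ)
  obtain ⟨b, hb, hb'⟩ := h2
  rw [← hΦ] at hb'
  rw [← j.injective hb']
  exact hb

section Core

variable {k L K : Type u} [Field k] [Field L] [Field K] [Algebra k L] [Algebra L K] [Algebra k K]
  [IsScalarTower k L K] [CharZero k] [CharZero L] [CharZero K]

omit [CharZero K] in
/-- `x` is transcendental. -/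
theorem x_transc (D : Derivation ℤ K K) (hD : ∀ c : L, D (algebraMap L K c) = 0) {x : K}
    (hx : D x ≠ 0) : Transcendental L x := by
  intro h
  exact hx (kill D hD h)

/-- `z` is algebraic over the field generated by `x`. -/
theorem z_alg (D : Derivation ℤ K K) (hD : ∀ c : L, D (algebraMap L K c) = 0) {x z θ : K}
    (hx : D x ≠ 0) {φ : L} (hφ : Transcendental k φ) (hG : Gen k x z θ (algebraMap L K φ)) :
    IsAlgebraic L⟮x⟯ z := by
  by_contra h
  have hz : Transcendental L⟮x⟯ z := h
  have : CharZero L⟮x⟯ := charZero_of_injective_algebraMap (algebraMap L L⟮x⟯).injective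
  obtain ⟨δ, hδ⟩ := exists_deriv L⟮x⟯ K hz
  have hφ' : Transcendental k (algebraMap L K φ) := by
    rwa [transcendental_algebraMap_iff (algebraMap L K).injective]
  obtain ⟨δ', hδ'⟩ := exists_deriv k K hφ'
  let β : K := δ' x / D x
  let α : K := δ' z - β * D z
  let G : Derivation ℤ K K := δ'.restrictScalars ℤ - α • δ.restrictScalars ℤ - β • D
  have hGa : ∀ w, G w = δ' w - α * δ w - β * D w := fun w => rfl
  have hLK : ∀ c : L, δ (algebraMap L K c) = 0 := by
    intro c
    rw [IsScalarTower.algebraMap_apply L L⟮x⟯ K]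
    exact δ.map_algebraMap _
  have h1 : G (algebraMap L K φ) = 0 := by
    apply hG.kill (RingHom.id K) G (x₁ := x) (z₁ := z) (θ₁ := θ) _ rfl rfl rfl rfl
    · rw [hGa]
      have h2 : δ x = 0 := δ.map_algebraMap (AdjoinSimple.gen L x)
      rw [h2, mul_zero, sub_zero]
      change δ' x - δ' x / D x * D x = 0
      rw [div_mul_cancel₀ _ hx, sub_self]
    · rw [hGa, hδ]
      change δ' z - (δ' z - β * D z) * 1 - β * D z = 0
      ring
    · intro c
      refine ⟨algebraMap k K c, rfl, ?_⟩
      rw [hGa, δ'.map_algebraMap, IsScalarTower.algebraMap_apply k L K, hLK, hD]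
      ring
  rw [hGa, hδ', hLK, hD] at h1
  simp at h1

/-- the field generated by `x`, `z`, `θ` -/
theorem ff_adjoin (D : Derivation ℤ K K) (hD : ∀ c : L, D (algebraMap L K c) = 0) {x z θ : K}
    (hx : D x ≠ 0) {φ : L} (hφ : Transcendental k φ) (hG : Gen k x z θ (algebraMap L K φ)) :
    FF L (adjoin L ({x, z, θ} : Set K)) ∧ Transcendental L x ∧
      ∀ y ∈ adjoin L ({x, z, θ} : Set K), IsAlgebraic L⟮x⟯ y := by
  have hxt : Transcendental L x := x_transc D hD hx
  have hza : IsAlgebraic L⟮x⟯ z := z_alg D hD hx hφ hG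
  -- everything is algebraic over L(x)
  let A : IntermediateField L⟮x⟯ K := algebraicClosure L⟮x⟯ K
  have hkA : ∀ c : L, algebraMap L K c ∈ A.toSubfield := by
    intro c
    rw [IsScalarTower.algebraMap_apply L L⟮x⟯ K]
    exact A.algebraMap_mem _
  have hxA : x ∈ A := A.algebraMap_mem (AdjoinSimple.gen L x)
  have hzA : z ∈ A := hza.isIntegral
  have hθA : θ ∈ A := by
    have h4 := hG.alg A.toSubfield (fun c => by
      rw [IsScalarTower.algebraMap_apply k L K]; exact hkA _) hxA hzA
    have h5 : IsAlgebraic A θ := h4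
    have h6 : Algebra.IsAlgebraic L⟮x⟯ A := algebraicClosure.isAlgebraic L⟮x⟯ K
    have h7 : IsAlgebraic L⟮x⟯ θ := h5.restrictScalars L⟮x⟯
    exact h7.isIntegral
  have hle : adjoin L ({x, z, θ} : Set K) ≤ A.restrictScalars L := by
    rw [adjoin_le_iff]
    rintro y (rfl | rfl | rfl)
    · exact hxA
    · exact hzA
    · exact hθA
  have halg : ∀ y ∈ adjoin L ({x, z, θ} : Set K), IsAlgebraic L⟮x⟯ y := by
    intro y hy
    have h8 : y ∈ A := hle hy
    have h9 : IsIntegral L⟮x⟯ y := h8
    exact h9.isAlgebraic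
  refine ⟨?_, hxt, halg⟩
  let E := adjoin L ({x, z, θ} : Set K)
  have hxE : x ∈ E := subset_adjoin L _ (by simp)
  let x' : E := ⟨x, hxE⟩
  have hx't : Transcendental L x' := by
    intro h
    exact hxt (h.algHom E.val)
  have hess : Algebra.EssFiniteType L E := by
    rw [essFiniteType_iff]
    refine fg_adjoin_of_finite ?_
    exact Set.toFinite _
  have hess' : Algebra.EssFiniteType L⟮x'⟯ E := Algebra.EssFiniteType.of_comp L _ _
  have halg' : Algebra.IsAlgebraic L⟮x'⟯ E := by
    refine ⟨fun y => ?_⟩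
    have h1 := halg y.1 y.2
    have h2 : L⟮x⟯ = L⟮x'⟯.map E.val := by
      rw [adjoin_map, Set.image_singleton]
      rfl
    have h3 : ∀ a : L⟮x'⟯, E.val a.1 ∈ L⟮x⟯ := by
      intro a
      rw [h2]
      exact ⟨a.1, a.2, rfl⟩
    let f : L⟮x'⟯ →+* L⟮x⟯ := ((E.val : E →+* K).comp L⟮x'⟯.toSubfield.subtype).codRestrict L⟮x⟯ h3
    have hf : Function.Surjective f := by
      rintro ⟨s, hs⟩
      have hs' := hs
      rw [h2] at hs'
      obtain ⟨a, ha, rfl⟩ := hs'
      exact ⟨⟨a, ha⟩, rfl⟩
    exact h1.of_ringHom_of_comp_eq f (E.val : E →+* K) hf (E.val : E →+* K).injective rfl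
  have hfin : FiniteDimensional L⟮x'⟯ E := Algebra.finite_of_essFiniteType_of_isAlgebraic
  exact FF.of_finite hx't hfin

omit [CharZero K] in
/-- the function `ψ` -/
theorem exists_psi (D : Derivation ℤ K K) (hD : ∀ c : L, D (algebraMap L K c) = 0) {x z θ : K}
    (hx : D x ≠ 0) (hxz : D x = θ * D z) {φ : L} (hφ : Transcendental k φ)
    (halgφ : ∀ c : L, IsAlgebraic k⟮φ⟯ c) (hG : Gen k x z θ (algebraMap L K φ))
    (E : IntermediateField L K) (hE : ∀ y ∈ E, IsAlgebraic L⟮x⟯ y) (x' z' θ' : E)
    (hx' : (x' : K) = x) (hz' : (z' : K) = z) (hθ' : (θ' : K) = θ) :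
    ∃ (ψ : E) (δ₀ : Derivation k E E), ψ ≠ 0 ∧ δ₀ (algebraMap L E φ) = 1 ∧
      ∀ δ : Derivation k E E, δ (algebraMap L E φ) = 1 →
        D z * (ψ : K) = (δ x' : K) * D z - (δ z' : K) * D x := by
  have hφ' : Transcendental k (algebraMap L E φ) := by
    rwa [transcendental_algebraMap_iff (algebraMap L E).injective]
  obtain ⟨δ₀, hδ₀⟩ := exists_deriv k E hφ'
  -- the derivations of `E` into `K`
  let DE : Derivation ℤ E K := D.compAlgebraMap E
  let em : Derivation k E E → Derivation ℤ E K := fun δ =>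
    (Algebra.linearMap E K).compDer (δ.restrictScalars ℤ)
  let F : K → K → Derivation k E E → Derivation ℤ E K := fun α β δ => α • DE - β • em δ
  have hF : ∀ α β δ (w : E), F α β δ w = α * D (w : K) - β * (δ w : K) := fun _ _ _ _ => rfl
  have hDk : ∀ c : k, D (algebraMap k K c) = 0 := fun c => by
    rw [IsScalarTower.algebraMap_apply k L K, hD]
  have hcoe : ∀ c : L, ((algebraMap L E c : E) : K) = algebraMap L K c := fun c => rfl
  have hcoek : ∀ c : k, ((algebraMap k E c : E) : K) = algebraMap k K c := fun c => rfl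
  have hFk : ∀ α β δ (c : k), F α β δ (algebraMap k E c) = 0 := by
    intro α β δ c
    rw [hF, hcoek, hDk, δ.map_algebraMap]
    simp
  have hchE : CharZero E := charZero_of_injective_algebraMap (algebraMap L E).injective
  let ψ : E := δ₀ x' - θ' * δ₀ z'
  have hψ : D z * (ψ : K) = (δ₀ x' : K) * D z - (δ₀ z' : K) * D x := by
    have h1 : (ψ : K) = (δ₀ x' : K) - θ * (δ₀ z' : K) := by
      rw [← hθ']; rfl
    rw [h1, hxz]; ring
  refine ⟨ψ, δ₀, ?_, hδ₀, ?_⟩
  · intro h0
    rw [h0] at hψ
    have h1 : F (δ₀ x' : K) (D x) δ₀ (algebraMap L E φ) = 0 := by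
      apply hG.kill (algebraMap E K) (F (δ₀ x' : K) (D x) δ₀) (x₁ := x') (z₁ := z') (θ₁ := θ') _
        hx' hz' hθ' rfl
      · rw [hF, hx']; ring
      · rw [hF, hz', mul_comm (D x), ← hψ]
        simp
      · intro c
        exact ⟨algebraMap k E c, rfl, hFk _ _ _ c⟩
    rw [hF, hcoe, hD, hδ₀, mul_zero, zero_sub, neg_eq_zero] at h1
    apply hx
    simpa using h1
  · intro δ hδ
    have h1 : F ((δ x' : K) - (δ₀ x' : K)) (D x) (δ - δ₀) z' = 0 := by
      -- constants
      have h2 : ∀ c : L, F ((δ x' : K) - (δ₀ x' : K)) (D x) (δ - δ₀) (algebraMap L E c) = 0 := by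
        intro c
        let G' : Derivation ℤ L K := (em (δ - δ₀)).compAlgebraMap L
        have h3 : ∀ c : L, G' c = (((δ - δ₀) (algebraMap L E c) : E) : K) := fun _ => rfl
        have h4 : G' c = 0 := by
          have h5 : ∀ a ∈ k⟮φ⟯, G' a = 0 := by
            intro a ha
            have h6 : k⟮φ⟯.toSubfield ≤ kf G' := by
              have h7 : ∀ b ∈ k⟮φ⟯, b ∈ kf G' := by
                intro b hb
                induction hb using IntermediateField.adjoin_induction with
                | mem z hz =>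
                  rw [Set.mem_singleton_iff] at hz
                  rw [hz, mem_kf, h3, Derivation.sub_apply, hδ, hδ₀, sub_self]
                  rfl
                | algebraMap c =>
                  rw [mem_kf, h3, ← IsScalarTower.algebraMap_apply k L E,
                    Derivation.map_algebraMap]
                  rfl
                | add a b _ _ ha hb => exact add_mem ha hb
                | mul a b _ _ ha hb => exact mul_mem ha hb
                | inv a _ ha => exact inv_mem ha
              exact h7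
            exact h6 ha
          exact kill G' (fun a : k⟮φ⟯ => h5 a.1 a.2) (halgφ c)
        rw [hF, hcoe, hD, ← h3, h4]
        simp
      have h8 : F ((δ x' : K) - (δ₀ x' : K)) (D x) (δ - δ₀) x' = 0 := by
        rw [hF, hx', Derivation.sub_apply, show ((δ x' - δ₀ x' : E) : K) = (δ x' : K) - (δ₀ x' : K) from rfl]
        ring
      generalize F ((δ x' : K) - (δ₀ x' : K)) (D x) (δ - δ₀) = G at h2 h8 ⊢
      let S : Subfield K := (kf G).map (algebraMap E K)
      have hS : ∀ b : E, G b = 0 → (b : K) ∈ S := fun b hb => ⟨b, hb, rfl⟩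
      have hle : ∀ a ∈ L⟮x⟯, a ∈ S := by
        intro a ha
        induction ha using IntermediateField.adjoin_induction with
        | mem y hy =>
          rw [Set.mem_singleton_iff] at hy
          rw [hy, ← hx']
          exact hS _ h8
        | algebraMap c => exact hS _ (h2 c)
        | add a b _ _ ha hb => exact add_mem ha hb
        | mul a b _ _ ha hb => exact mul_mem ha hb
        | inv a _ ha => exact inv_mem ha
      have hz1 : IsAlgebraic L⟮x⟯ z := hz' ▸ hE _ z'.2
      let f₁ : L⟮x⟯ →+* S := L⟮x⟯.toSubfield.subtype.codRestrict S (fun a => hle a.1 a.2)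
      have hz2 : IsAlgebraic S z := hz1.ringHom_of_comp_eq f₁ (RingHom.id K) f₁.injective rfl
      let f₂ : kf G →+* S := ((algebraMap E K).comp (kf G).subtype).codRestrict S
        (fun a => hS _ a.2)
      have hf₂ : Function.Surjective f₂ := by
        rintro ⟨s, a, ha, rfl⟩
        exact ⟨⟨a, ha⟩, rfl⟩
      rw [← hz'] at hz2
      exact kf_alg G (hz2.of_ringHom_of_comp_eq f₂ (algebraMap E K) hf₂
        (algebraMap E K).injective rfl)
    rw [hF, hz', Derivation.sub_apply] at h1
    have h9 : ((δ z' - δ₀ z' : E) : K) = (δ z' : K) - (δ₀ z' : K) := rfl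
    rw [h9] at h1
    rw [hψ]
    linear_combination -h1

end Core

end Pool.Agent.PPZ.H67
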