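import Mathlib
import Pool.Agent.Helper3_PPZ.Stmts
import Pool.Agent.Helper67_PPZ.PenA
import Pool.Agent.Helper67_PPZ.PenB

/-!
# Squad PPZ, module PEN, part C: the valuation ring
-/

set_option autoImplicit false

universe u

open IntermediateField PGH Filter

namespace Pool.Agent.PPZ.H67

/-- `y` is a nonunit of the valuation ring -/
def Nu {K : Type*} [Field K] (A : ValuationSubring K) (y : K) : Prop := y = 0 ∨ y⁻¹ ∉ A

section Ring

variable {ι : Type u} (U : Ultrafilter ι) {k : Type u} [Field k] {E : ι → Type u}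
  [∀ i, Field (E i)] [∀ i, Algebra k (E i)] (P : ∀ i, Place k (E i))

/-- the germs of order at least `n` -/
def Rg (n : ℤ) (y : UP U E) : Prop :=
  ∃ f, mk U E f = y ∧ ∀ᶠ i in (U : Filter ι), (P i).Ge n (f i)

theorem rg_mk (n : ℤ) (f : ∀ i, E i) :
    Rg U P n (mk U E f) ↔ ∀ᶠ i in (U : Filter ι), (P i).Ge n (f i) := by
  constructor
  · rintro ⟨g, hg, hg'⟩
    rw [mk_eq] at hg
    filter_upwards [hg, hg'] with i h1 h2
    rwa [← h1]
  · intro h
    exact ⟨f, rfl, h⟩

/-- the valuation ring of the germs of integral sequences -/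
def vr : ValuationSubring (UP U E) where
  carrier := {y | Rg U P 0 y}
  one_mem' := ⟨1, map_one _, Eventually.of_forall fun i => by
    rw [Pi.one_apply]; exact (P i).ge_one⟩
  zero_mem' := ⟨0, map_zero _, Eventually.of_forall fun i => (P i).ge_zero 0⟩
  add_mem' := by
    rintro _ _ ⟨f, rfl, hf⟩ ⟨g, rfl, hg⟩
    refine ⟨f + g, map_add _ _ _, ?_⟩
    filter_upwards [hf, hg] with n h1 h2
    exact h1.add h2
  mul_mem' := by
    rintro _ _ ⟨f, rfl, hf⟩ ⟨g, rfl, hg⟩
    refine ⟨f * g, map_mul _ _ _, ?_⟩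
    filter_upwards [hf, hg] with n h1 h2
    exact h1.mul' h2 (by omega)
  neg_mem' := by
    rintro _ ⟨f, rfl, hf⟩
    refine ⟨-f, map_neg _ _, ?_⟩
    filter_upwards [hf] with n h1
    exact h1.neg
  mem_or_inv_mem' := by
    intro y
    obtain ⟨f, rfl⟩ := mk_surjective y
    rcases Ultrafilter.em U (fun i => (P i).Ge 0 (f i)) with h | h
    · exact Or.inl ⟨f, rfl, h⟩
    · right
      refine ⟨f⁻¹, mk_inv f, ?_⟩
      filter_upwards [h] with i h1
      rw [Pi.inv_apply]
      by_cases h0 : f i = 0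
      · rw [h0, inv_zero]; exact (P i).ge_zero 0
      · rw [(P i).ge_iff (inv_ne_zero h0), (P i).ord_inv]
        rw [(P i).ge_iff h0] at h1
        omega

theorem mem_vr (f : ∀ i, E i) :
    mk U E f ∈ vr U P ↔ ∀ᶠ i in (U : Filter ι), (P i).Ge 0 (f i) := rg_mk U P 0 f

theorem nu_vr (f : ∀ i, E i) :
    Nu (vr U P) (mk U E f) ↔ ∀ᶠ i in (U : Filter ι), (P i).Ge 1 (f i) := by
  rw [Nu, ← mk_inv, mem_vr, ← Ultrafilter.eventually_not, mk_eq_zero, ← Ultrafilter.eventually_or]
  constructor
  · intro h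
    filter_upwards [h] with i hi
    rcases hi with h1 | h1
    · rw [h1]; exact (P i).ge_zero 1
    · by_cases h0 : f i = 0
      · rw [h0]; exact (P i).ge_zero 1
      · rw [Pi.inv_apply, (P i).ge_iff (inv_ne_zero h0), (P i).ord_inv] at h1
        rw [(P i).ge_iff h0]
        omega
  · intro h
    filter_upwards [h] with i hi
    by_cases h0 : f i = 0
    · exact Or.inl h0
    · right
      rw [Pi.inv_apply, (P i).ge_iff (inv_ne_zero h0), (P i).ord_inv]
      rw [(P i).ge_iff h0] at hi
      omega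

end Ring

/-- A horizontal derivation which preserves the valuation ring and its ideal. -/
theorem exists_delta (hhor : HorStmt.{u}) {k L K : Type u} [Field k] [Field L] [Field K]
    [Algebra k L] [Algebra L K] [Algebra k K] [IsScalarTower k L K] [CharZero k] [IsAlgClosed L]
    [CharZero L] (A : ValuationSubring K) (hA : ∀ c : L, algebraMap L K c ∈ A)
    (E : IntermediateField L K) [FF L E] {φ : L} (hφ : Transcendental k φ)
    (halgφ : ∀ c : L, IsAlgebraic k⟮φ⟯ c) (δ₀ : Derivation k E E)
    (hδ₀ : δ₀ (algebraMap L E φ) = 1) :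
    ∃ δ : Derivation k E E, δ (algebraMap L E φ) = 1 ∧
      (∀ y : E, (y : K) ∈ A → ((δ y : E) : K) ∈ A) ∧
      ∀ y : E, Nu A (y : K) → Nu A ((δ y : E) : K) := by
  let A₁ : ValuationSubring E := A.comap (algebraMap E K)
  have hA₁ : ∀ y : E, y ∈ A₁ ↔ (y : K) ∈ A := fun y => Iff.rfl
  by_cases htop : A₁ = ⊤
  · refine ⟨δ₀, hδ₀, ?_, ?_⟩
    · intro y _
      rw [← hA₁, htop]
      exact ValuationSubring.mem_top _
    · intro y hy
      rcases hy with h | h
      · have h1 : y = 0 := by exact_mod_cast h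
        left
        rw [h1, map_zero]
        rfl
      · exfalso
        apply h
        have h1 : y⁻¹ ∈ A₁ := by rw [htop]; exact ValuationSubring.mem_top _
        exact h1
  · obtain ⟨P, hP⟩ := Place.exists_of_valuationSubring (L := L) A₁ hA htop
    obtain ⟨δ, hδ, h1, h2⟩ := hhor φ hφ halgφ P
    refine ⟨δ, hδ, ?_, ?_⟩
    · intro y hy
      rw [← hA₁, ← hP] at hy ⊢
      exact h1 y hy
    · have h3 : ∀ y : E, Nu A (y : K) ↔ P.Ge 1 y := by
        intro y
        by_cases h0 : y = 0
        · rw [h0]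
          exact ⟨fun _ => P.ge_zero 1, fun _ => Or.inl rfl⟩
        · have h4 : ((y⁻¹ : E) : K) = (y : K)⁻¹ := rfl
          rw [Nu, ← h4, ← hA₁, ← hP, P.ge_iff (inv_ne_zero h0), P.ord_inv, P.ge_iff h0]
          constructor
          · rintro (h | h)
            · exact absurd (by exact_mod_cast h) h0
            · omega
          · intro h
            right
            omega
      intro y hy
      rw [h3] at hy ⊢
      exact h2 y hy

end Pool.Agent.PPZ.H67
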