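import Mathlib
import Pool.Agent.Helper67_PPZ.PenC

/-!
# Squad PPZ, module PEN, part D: the local estimates
-/

set_option autoImplicit false

universe u

open IntermediateField PGH Filter

namespace Pool.Agent.PPZ.H67

section Local

variable {k E : Type u} [Field k] [Field E] [Algebra k E]

theorem deriv_inv (D : Derivation ℤ E E) {x : E} (hx : x ≠ 0) : D x = -x ^ 2 * D x⁻¹ := by
  rw [D.leibniz_inv, smul_eq_mul]
  field_simp

theorem ge_sq (P : Place k E) {x w : E} {n : ℤ} (hw : P.Ge n w) :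
    P.Ge (2 * P.ord x + n) (-x ^ 2 * w) := by
  have h1 : P.Ge (P.ord x) x := P.ge_ord
  have h2 : P.Ge (2 * P.ord x) (x ^ 2) := by
    have := h1.pow 2
    exact_mod_cast this
  exact h2.neg.mul hw

theorem inv_ge_one (P : Place k E) {x : E} (hx : ¬ P.Ge 0 x) :
    x ≠ 0 ∧ P.ord x < 0 ∧ P.Ge 1 x⁻¹ := by
  have h0 : x ≠ 0 := by
    rintro rfl
    exact hx (P.ge_zero 0)
  rw [P.ge_iff h0] at hx
  refine ⟨h0, by omega, ?_⟩
  rw [P.ge_iff (inv_ne_zero h0), P.ord_inv]
  omega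

theorem ord_nonneg (P : Place k E) {x : E} (hx : P.Ge 0 x) : 0 ≤ P.ord x := by
  by_cases h0 : x = 0
  · rw [h0, P.ord_zero]
  · exact (P.ge_iff h0).1 hx

theorem dge_ge (P : Place k E) {D : Derivation ℤ E E} {n : ℤ} (h : DGe P D n) (x : E) :
    P.Ge (n - 2 * max 0 (-P.ord x)) (D x) := by
  by_cases hx : P.Ge 0 x
  · refine (h x hx).mono ?_
    have := le_max_left 0 (-P.ord x)
    omega
  · obtain ⟨h0, h1, h2⟩ := inv_ge_one P hx
    rw [deriv_inv D h0]
    refine (ge_sq P (h _ (h2.mono (by omega)))).mono ?_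
    rw [max_eq_right (by omega)]
    omega

end Local

section Germs

variable {ι : Type u} (U : Ultrafilter ι) {k : Type u} [Field k] {E : ι → Type u}
  [∀ i, Field (E i)] [∀ i, Algebra k (E i)] (P : ∀ i, Place k (E i))

theorem germ_ge {F : Type u} [Field F] (j : F →+* UP U E) (δ : Derivation ℤ F F)
    (h0 : ∀ y : F, j y ∈ vr U P → j (δ y) ∈ vr U P)
    (h1 : ∀ y : F, Nu (vr U P) (j y) → Nu (vr U P) (j (δ y))) (y : F) (x dx : ∀ i, E i)
    (hx : mk U E x = j y) (hdx : mk U E dx = j (δ y)) :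
    ∀ᶠ i in (U : Filter ι), (P i).Ge (-2 * max 0 (-(P i).ord (x i))) (dx i) := by
  rcases Ultrafilter.em U (fun i => (P i).Ge 0 (x i)) with h | h
  · have h2 := (mem_vr U P x).2 h
    rw [hx] at h2
    have h3 := h0 y h2
    rw [← hdx, mem_vr] at h3
    filter_upwards [h3] with i hi
    refine hi.mono ?_
    have := le_max_left 0 (-(P i).ord (x i))
    omega
  · have h2 : ∀ᶠ i in (U : Filter ι), (P i).Ge 1 (x⁻¹ i) := by
      filter_upwards [h] with i hi
      exact (inv_ge_one (P i) hi).2.2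
    have h3 := (nu_vr U P x⁻¹).2 h2
    rw [mk_inv, hx, ← map_inv₀] at h3
    have h4 := h1 _ h3
    obtain ⟨w, hw⟩ := mk_surjective (j (δ y⁻¹))
    rw [← hw, nu_vr] at h4
    have hy : y ≠ 0 := by
      rintro rfl
      rw [map_zero, mk_eq_zero] at hx
      obtain ⟨i, h5, h6⟩ := (hx.and h).exists
      exact (inv_ge_one (P i) h6).1 h5
    have h5 : mk U E dx = mk U E (-x ^ 2 * w) := by
      rw [hdx, deriv_inv δ hy, map_mul, map_mul, hw, map_neg, map_neg, map_pow, map_pow, hx]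
    rw [mk_eq] at h5
    filter_upwards [h, h4, h5] with i h6 h7 h8
    rw [h8]
    change (P i).Ge _ (-x i ^ 2 * w i)
    refine (ge_sq (P i) h7).mono ?_
    have h9 := (inv_ge_one (P i) h6).2.1
    rw [max_eq_right (by omega)]
    omega

theorem germ_node {F : Type u} [Field F] [Algebra k F] (j : F →+* UP U E)
    (hj : ∀ c : k, j (algebraMap k F c) = algebraMap k (UP U E) c) (δ : Derivation k F F)
    (h1 : ∀ y : F, Nu (vr U P) (j y) → Nu (vr U P) (j (δ y))) (y : F) (x dx : ∀ i, E i)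
    (hx : mk U E x = j y) (hdx : mk U E dx = j (δ y)) (α : k)
    (h : ∀ᶠ i in (U : Filter ι), (P i).Ge 1 (x i - algebraMap k (E i) α)) :
    ∀ᶠ i in (U : Filter ι), (P i).Ge 1 (dx i) := by
  have h2 : j (y - algebraMap k F α) = mk U E (fun i => x i - algebraMap k (E i) α) := by
    rw [map_sub, hj, ← hx, algebraMap_eq, ← map_sub]
    rfl
  have h3 : Nu (vr U P) (j (y - algebraMap k F α)) := by
    rw [h2, nu_vr]
    exact h
  have h4 := h1 _ h3
  rw [map_sub, δ.map_algebraMap, sub_zero, ← hdx, nu_vr] at h4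
  exact h4

end Germs

/-- The function `ψ` and the horizontal derivations, in terms of sequences. -/
theorem exists_seq (hhor : HorStmt.{u}) {ι : Type u} (U : Ultrafilter ι) {k : Type u} [Field k]
    [IsAlgClosed k] [CharZero k] {E : ι → Type u} [∀ i, Field (E i)] [∀ i, Algebra k (E i)]
    (D : ∀ i, Derivation ℤ (E i) (E i)) (x z θ : ∀ i, E i)
    (hDk : ∀ i (c : k), D i (algebraMap k (E i) c) = 0) (hx : ∀ i, D i (x i) ≠ 0)
    (hxz : ∀ i, D i (x i) = θ i * D i (z i)) (c : ι → k) (hc : Transcendental k (cmk U k c))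
    (hG : Gen k (mk U E x) (mk U E z) (mk U E θ) (cmap U k E (cmk U k c))) :
    ∃ ψ : ∀ i, E i, (∀ᶠ i in (U : Filter ι), ψ i ≠ 0) ∧ ∀ P : ∀ i, Place k (E i),
      ∃ dx dz : ∀ i, E i,
        (∀ᶠ i in (U : Filter ι), D i (z i) * ψ i = dx i * D i (z i) - dz i * D i (x i)) ∧
        (∀ᶠ i in (U : Filter ι), (P i).Ge (-2 * max 0 (-(P i).ord (x i))) (dx i)) ∧
        (∀ᶠ i in (U : Filter ι), (P i).Ge (-2 * max 0 (-(P i).ord (z i))) (dz i)) ∧
        (∀ α : k, (∀ᶠ i in (U : Filter ι), (P i).Ge 1 (x i - algebraMap k (E i) α)) →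
          ∀ᶠ i in (U : Filter ι), (P i).Ge 1 (dx i)) ∧
        ∀ β : k, (∀ᶠ i in (U : Filter ι), (P i).Ge 1 (z i - algebraMap k (E i) β)) →
          ∀ᶠ i in (U : Filter ι), (P i).Ge 1 (dz i) := by
  obtain ⟨L, _, _, j, φ, _, hjφ, hφ, halgφ⟩ := exists_closure (cmk U k c) hc
  let _ : Algebra L (UP U E) := ((cmap U k E).comp (j : L →+* Cs U k)).toAlgebra
  have hLK : ∀ l : L, algebraMap L (UP U E) l = cmap U k E (j l) := fun l => rfl
  have : IsScalarTower k L (UP U E) := IsScalarTower.of_algebraMap_eq (fun l => by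
    rw [hLK, j.commutes, cmap_algebraMap])
  have hchK : CharZero (UP U E) := up_charZero k
  have hchL : CharZero L := charZero_of_injective_algebraMap (algebraMap k L).injective
  have hrep : ∀ l : L, ∃ f : ι → k, algebraMap L (UP U E) l =
      mk U E (fun i => algebraMap k (E i) (f i)) := by
    intro l
    obtain ⟨f, hf⟩ := cmk_surjective (j l)
    refine ⟨f, ?_⟩
    rw [hLK, ← hf, cmap_cmk]
  have hD : ∀ l : L, dst D (algebraMap L (UP U E) l) = 0 := by
    intro l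
    obtain ⟨f, hf⟩ := hrep l
    rw [hf, dst_mk, mk_eq_zero]
    exact Eventually.of_forall fun i => hDk i _
  have hDx : dst D (mk U E x) ≠ 0 := by
    rw [dst_mk, mk_ne_zero]
    exact Eventually.of_forall hx
  have hDxz : dst D (mk U E x) = mk U E θ * dst D (mk U E z) := by
    rw [dst_mk, dst_mk, ← map_mul, mk_eq]
    exact Eventually.of_forall hxz
  have hG' : Gen k (mk U E x) (mk U E z) (mk U E θ) (algebraMap L (UP U E) φ) := by
    rw [hLK, hjφ]
    exact hG
  obtain ⟨hff, hxt, halg⟩ := ff_adjoin (dst D) hD hDx hφ hG'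
  let F := adjoin L ({mk U E x, mk U E z, mk U E θ} : Set (UP U E))
  let x' : F := ⟨mk U E x, subset_adjoin L _ (by simp)⟩
  let z' : F := ⟨mk U E z, subset_adjoin L _ (by simp)⟩
  let θ' : F := ⟨mk U E θ, subset_adjoin L _ (by simp)⟩
  obtain ⟨ψ, δ₀, hψ0, hδ₀, hψ⟩ := exists_psi (dst D) hD hDx hDxz hφ halgφ hG' F halg x' z' θ' rfl
    rfl rfl
  obtain ⟨ψs, hψs⟩ := mk_surjective (ψ : UP U E)
  refine ⟨ψs, ?_, ?_⟩
  · rw [← mk_ne_zero, hψs]
    intro h
    apply hψ0
    exact_mod_cast h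
  intro P
  obtain ⟨δ, hδ, h1, h2⟩ := exists_delta hhor (vr U P) (by
    intro l
    obtain ⟨f, hf⟩ := hrep l
    rw [hf, mem_vr]
    exact Eventually.of_forall fun i => (P i).ge_const _) F hφ halgφ δ₀ hδ₀
  obtain ⟨dx, hdx⟩ := mk_surjective (U := U) ((δ x' : F) : UP U E)
  obtain ⟨dz, hdz⟩ := mk_surjective (U := U) ((δ z' : F) : UP U E)
  refine ⟨dx, dz, ?_, ?_, ?_, ?_, ?_⟩
  · have h3 := hψ δ hδ
    rw [← hψs, ← hdx, ← hdz] at h3
    have h4 : mk U E (fun i => D i (z i)) * mk U E ψs =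
      mk U E dx * mk U E (fun i => D i (z i)) - mk U E dz * mk U E (fun i => D i (x i)) := h3
    rw [← map_mul, ← map_mul, ← map_mul, ← map_sub, mk_eq] at h4
    exact h4
  · exact germ_ge U P (algebraMap F (UP U E)) (δ.restrictScalars ℤ) h1 h2 x' x dx rfl hdx
  · exact germ_ge U P (algebraMap F (UP U E)) (δ.restrictScalars ℤ) h1 h2 z' z dz rfl hdz
  · intro α h
    exact germ_node U P (algebraMap F (UP U E)) (fun _ => rfl) δ h2 x' x dx rfl hdx α h
  · intro α h
    exact germ_node U P (algebraMap F (UP U E)) (fun _ => rfl) δ h2 z' z dz rfl hdz α h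

end Pool.Agent.PPZ.H67
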