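import Mathlib
import Pool.Agent.Helper67_PPZ.PenD

/-!
# Squad PPZ, module PEN, part E: the germs of `x, z, θ`
-/

set_option autoImplicit false

universe u

open PGH Filter MvPolynomial

namespace Pool.Agent.PPZ.H67

open Pool.Agent.PPX

section Aeval

variable {ι : Type u} {U : Ultrafilter ι} {k : Type u} [Field k] {E : ι → Type u}
  [∀ i, Field (E i)] [∀ i, Algebra k (E i)]

theorem mk_aeval {σ : Type*} (pt : σ → ∀ i, E i) (p : MvPolynomial σ k) :
    mk U E (fun i => aeval (fun v => pt v i) p) = aeval (fun v => mk U E (pt v)) p := by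
  induction p using MvPolynomial.induction_on with
  | C c =>
    simp only [aeval_C]
    rfl
  | add p q hp hq =>
    simp only [map_add]
    rw [← hp, ← hq, ← map_add]
    rfl
  | mul_X p v hp =>
    simp only [map_mul, aeval_X]
    rw [← hp, ← map_mul]
    rfl

theorem mk_eval₂ {R : Type*} [CommRing R] (g : ∀ i, R →+* E i) (θ : ∀ i, E i)
    (G : Polynomial R) :
    mk U E (fun i => G.eval₂ (g i) (θ i)) =
      G.eval₂ ((mk U E).comp (RingHom.pi g)) (mk U E θ) := by
  rw [← Polynomial.hom_eval₂]
  congr 1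
  funext i
  have h := Polynomial.hom_eval₂ G (RingHom.pi g) (Pi.evalRingHom E i) θ
  exact h.symm

end Aeval

theorem aeval_mem {k K : Type*} [Field k] [Field K] [Algebra k K] (S : Subfield K)
    (hk : ∀ c : k, algebraMap k K c ∈ S) {σ : Type*} (pt : σ → K) (p : MvPolynomial σ k)
    (h : ∀ v, pt v ∈ S ∨ degreeOf v p = 0) : aeval pt p ∈ S := by
  rw [aeval_def, eval₂_eq]
  refine sum_mem fun d hd => mul_mem (hk _) (prod_mem fun v hv => ?_)
  rcases h v with h1 | h1
  · exact pow_mem h1 _
  · have h2 := monomial_le_degreeOf v hd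
    rw [h1] at h2
    rw [Nat.le_zero.1 h2, pow_zero]
    exact one_mem S

section Gen

variable {k : Type u} [Field k] {N₁ N₂ : ℕ} {a : Fin N₁ → k} {b : Fin N₂ → k} (T : Fam a b)

/-- the germ of a sequence of elements of the fields of the family -/
noncomputable abbrev gm (f : ∀ i, (T.C i).E) : UP T.U (fun i => (T.C i).E) :=
  mk T.U (fun i => (T.C i).E) f

theorem gen_of (G : Polynomial (MvPolynomial (Fin 2) k)) (hG : G ≠ 0) (p q : P4 k)
    (hp : degreeOf 3 p = 0) (hq : degreeOf 3 q = 0)
    (hroot : ∀ᶠ i in (T.U : Filter T.ι), RootTh (T.C i) G)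
    (hq0 : ∀ᶠ i in (T.U : Filter T.ι), (T.C i).ev q ≠ 0) (c : T.ι → k)
    (hc : ∀ᶠ i in (T.U : Filter T.ι), (T.C i).ev p = algebraMap k (T.C i).E (c i) * (T.C i).ev q) :
    Gen k (gm T fun i => (T.C i).x) (gm T fun i => (T.C i).z) (gm T fun i => (T.C i).th)
      (cmap T.U k (fun i => (T.C i).E) (cmk T.U k c)) := by
  constructor
  · intro S hk hx hz
    let pt : Fin 2 → ∀ i, (T.C i).E := ![fun i => (T.C i).x, fun i => (T.C i).z]
    have hpt : ∀ i, (fun v => pt v i) = ![(T.C i).x, (T.C i).z] := by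
      intro i
      funext v
      fin_cases v <;> rfl
    let g : MvPolynomial (Fin 2) k →ₐ[k] UP T.U (fun i => (T.C i).E) :=
      aeval (fun v => gm T (pt v))
    have hg : ∀ F, g F = gm T (fun i => (T.C i).ev2 F) := by
      intro F
      have h1 := mk_aeval (U := T.U) pt F
      simp only [hpt] at h1
      exact h1.symm
    have hgS : ∀ F, g F ∈ S := by
      intro F
      apply aeval_mem S hk
      intro v
      left
      fin_cases v
      · exact hx
      · exact hz
    have hginj : Function.Injective g := by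
      rw [injective_iff_map_eq_zero]
      intro F hF
      by_contra hne
      rw [hg, mk_eq_zero] at hF
      obtain ⟨i, h1, h2⟩ := (hF.and (T.gen F hne)).exists
      exact h2 h1
    let gS : MvPolynomial (Fin 2) k →+* S := g.toRingHom.codRestrict S hgS
    have hgSinj : Function.Injective gS := by
      intro F F' h
      exact hginj (congrArg Subtype.val h)
    refine ⟨G.map gS, (Polynomial.map_ne_zero_iff hgSinj).2 hG, ?_⟩
    rw [Polynomial.aeval_def, Polynomial.eval₂_map]
    have h2 := mk_eval₂ (U := T.U) (fun i => (aeval ![(T.C i).x, (T.C i).z] :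
      MvPolynomial (Fin 2) k →ₐ[k] (T.C i).E).toRingHom) (fun i => (T.C i).th) G
    have h3 : (mk T.U (fun i => (T.C i).E)).comp (RingHom.pi fun i =>
        (aeval ![(T.C i).x, (T.C i).z] : MvPolynomial (Fin 2) k →ₐ[k] (T.C i).E).toRingHom) =
        (algebraMap S (UP T.U (fun i => (T.C i).E))).comp gS := by
      refine RingHom.ext fun F => ?_
      exact (hg F).symm
    rw [h3] at h2
    rw [← h2, mk_eq_zero]
    exact hroot
  · intro S hk hx hz hθ
    let pt : Fin 4 → ∀ i, (T.C i).E := fun v i => (T.C i).pt v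
    have hev : ∀ F : P4 k, degreeOf 3 F = 0 → gm T (fun i => (T.C i).ev F) ∈ S := by
      intro F hF
      have h1 := mk_aeval (U := T.U) pt F
      have h2 : gm T (fun i => (T.C i).ev F) = aeval (fun v => gm T (pt v)) F := h1
      rw [h2]
      apply aeval_mem S hk
      intro v
      fin_cases v
      · exact Or.inl hx
      · exact Or.inl hz
      · exact Or.inl hθ
      · exact Or.inr hF
    have h1 := hev p hp
    have h2 := hev q hq
    have h3 : gm T (fun i => (T.C i).ev q) ≠ 0 := mk_ne_zero.2 hq0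
    have h4 : gm T (fun i => (T.C i).ev p) = cmap T.U k (fun i => (T.C i).E) (cmk T.U k c) *
        gm T (fun i => (T.C i).ev q) := by
      rw [cmap_cmk, ← map_mul, mk_eq]
      exact hc
    have h5 : cmap T.U k (fun i => (T.C i).E) (cmk T.U k c) =
        gm T (fun i => (T.C i).ev p) / gm T (fun i => (T.C i).ev q) := by
      rw [h4, mul_div_cancel_right₀ _ h3]
    rw [h5]
    exact div_mem h1 h2

theorem transc_of [IsAlgClosed k] (p q : P4 k) (c : T.ι → k)
    (hc : ∀ᶠ i in (T.U : Filter T.ι), (T.C i).ev p = algebraMap k (T.C i).E (c i) * (T.C i).ev q)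
    (hne : ∀ c : k, ∀ᶠ i in (T.U : Filter T.ι),
      (T.C i).ev p ≠ algebraMap k (T.C i).E c * (T.C i).ev q) :
    Transcendental k (cmk T.U k c) := by
  intro h
  obtain ⟨c₀, hc₀⟩ := mem_range_of_isAlgebraic h
  rw [cs_algebraMap, cmk_eq] at hc₀
  obtain ⟨i, ⟨h1, h2⟩, h3⟩ := ((hc₀.and hc).and (hne c₀)).exists
  rw [← h1] at h2
  exact h3 h2

end Gen

end Pool.Agent.PPZ.H67
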