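import Mathlib
import Pool.Agent.Helper67_PPZ.PenE

/-!
# Squad PPZ, module PEN: the case of a pencil
-/

set_option autoImplicit false

universe u

open PGH Filter MvPolynomial

namespace Pool.Agent.PPZ.H67

open Pool.Agent.PPX

section Count

variable {k : Type u} [Field k] [IsAlgClosed k] [CharZero k] {N₁ N₂ : ℕ} {a : Fin N₁ → k}
  {b : Fin N₂ → k} (C : BC a b)

/-- the local estimates for the function `y` -/
def Est (y : C.E) (P : Place k C.E) : Prop :=
  P.Ge (-(C.cp P : ℤ) - 2 * max 0 (-P.ord C.x) - 2 * max 0 (-P.ord C.z)) y ∧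
    (P ∈ C.nodes → P.Ge 1 y)

/-- the counting -/
theorem count (hfin : C.nodes.Finite) (h32 : 32 * C.h ≤ 4 * C.n) {y : C.E}
    (hy : y ≠ 0) (hE : ∀ P, Est C y P) : False := by
  classical
  let s : Finset (Place k C.E) := (finite_support (L := k) y).toFinset ∪ (C.sc ∪ hfin.toFinset)
  have h1 : ∑ P ∈ s, P.ord y = 0 := by
    apply sum_ord_eq_zero
    intro P hP
    by_contra hne
    exact hP (Finset.mem_union_left _ ((finite_support (L := k) y).mem_toFinset.2 hne))
  have h2 : ∀ P ∈ s, (if P ∈ C.nodes then (1 : ℤ) else 0) - (C.cp P : ℤ) -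
      2 * max 0 (-P.ord C.x) - 2 * max 0 (-P.ord C.z) ≤ P.ord y := by
    intro P _
    obtain ⟨h3, h4⟩ := hE P
    have h5 := le_max_left 0 (-P.ord C.x)
    have h6 := le_max_left 0 (-P.ord C.z)
    split_ifs with hn
    · have h7 := (P.ge_iff hy).1 (h4 hn)
      have h8 : (0 : ℤ) ≤ C.cp P := Int.natCast_nonneg _
      omega
    · have h7 := (P.ge_iff hy).1 h3
      omega
  have h3 := Finset.sum_le_sum h2
  rw [h1, Finset.sum_sub_distrib, Finset.sum_sub_distrib, Finset.sum_sub_distrib,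
    ← Finset.mul_sum, ← Finset.mul_sum] at h3
  have h4 : ∑ P ∈ s, (if P ∈ C.nodes then (1 : ℤ) else 0) = C.n := by
    rw [Finset.sum_ite, Finset.sum_const_zero, add_zero, Finset.sum_const, nsmul_eq_mul, mul_one]
    have h5 : s.filter (fun P => P ∈ C.nodes) = hfin.toFinset := by
      ext P
      rw [Finset.mem_filter, hfin.mem_toFinset]
      constructor
      · exact fun h => h.2
      · intro h
        exact ⟨Finset.mem_union_right _ (Finset.mem_union_right _ (hfin.mem_toFinset.2 h)), h⟩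
    rw [h5, BC.n, Set.ncard_eq_toFinset_card _ hfin]
  have h5 : ∑ P ∈ s, (C.cp P : ℤ) = ∑ P ∈ C.sc, (C.cp P : ℤ) := by
    symm
    apply Finset.sum_subset
    · intro P hP
      exact Finset.mem_union_right _ (Finset.mem_union_left _ hP)
    · intro P _ hP
      rw [C.bp.cp0 P hP]
      rfl
  have h6 := sum_poles_le (L := k) C.x s
  have h7 := sum_poles_le (L := k) C.z s
  rw [h4, h5] at h3
  have h8 := C.bad
  have h9 : ((∑ P ∈ C.sc, C.cp P : ℕ) : ℤ) = ∑ P ∈ C.sc, (C.cp P : ℤ) := by push_cast; rfl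
  have h10 : C.h = ht k C.x + ht k C.z := rfl
  rw [← h9] at h3
  generalize (∑ P ∈ C.sc, C.cp P) = σ at *
  omega

end Count

/-- PEN: the case of a pencil -/
theorem pen (hnod : NodStmt.{u}) (hhor : HorStmt.{u}) : PenStmt.{u} := by
  intro k _ _ _ N₁ N₂ a b hN₁ hN₂ ha hb G hG p q hp hq T hT hne
  classical
  -- the constants
  let c : T.ι → k := fun i =>
    if h : ∃ c : k, (T.C i).ev p = algebraMap k (T.C i).E c * (T.C i).ev q then h.choose else 0
  have hc : ∀ᶠ i in (T.U : Filter T.ι),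
      (T.C i).ev p = algebraMap k (T.C i).E (c i) * (T.C i).ev q := by
    filter_upwards [hT] with i hi
    have h := hi.2.2
    have h1 : c i = h.choose := dif_pos h
    rw [h1]
    exact h.choose_spec
  have hgen := gen_of T G hG p q hp hq (hT.mono fun i hi => hi.1) (hT.mono fun i hi => hi.2.1) c hc
  have htr := transc_of T p q c hc hne
  have hker : ∀ i (c : k), (T.C i).D (algebraMap k (T.C i).E c) = 0 := fun i c =>
    ((T.C i).ker _).2 ⟨c, rfl⟩
  obtain ⟨ψ, hψ0, hψ⟩ := exists_seq hhor T.U (fun i => (T.C i).D) (fun i => (T.C i).x)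
    (fun i => (T.C i).z) (fun i => (T.C i).th) hker (fun i => (T.C i).dx) (fun i => by
      change (T.C i).D (T.C i).x = (T.C i).D (T.C i).x / (T.C i).D (T.C i).z * (T.C i).D (T.C i).z
      rw [div_mul_cancel₀ _ (T.C i).dz]) c htr hgen
  -- the claim
  have hcl : ∀ᶠ i in (T.U : Filter T.ι), ∀ P : Place k (T.C i).E,
      Est (T.C i) ((T.C i).D (T.C i).z * ψ i) P := by
    by_contra hcon
    rw [← Ultrafilter.eventually_not] at hcon
    have hex : ∀ i, ∃ P : Place k (T.C i).E,
        (∃ P : Place k (T.C i).E, ¬ Est (T.C i) ((T.C i).D (T.C i).z * ψ i) P) →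
          ¬ Est (T.C i) ((T.C i).D (T.C i).z * ψ i) P := by
      intro i
      by_cases h : ∃ P : Place k (T.C i).E, ¬ Est (T.C i) ((T.C i).D (T.C i).z * ψ i) P
      · obtain ⟨P, hP⟩ := h
        exact ⟨P, fun _ => hP⟩
      · obtain ⟨y, hy⟩ := FF.exists_transcendental (L := k) (E := (T.C i).E)
        obtain ⟨P, _⟩ := exists_pole hy
        exact ⟨P, fun h' => absurd h' h⟩
    choose P hP using hex
    have hP' : ∀ᶠ i in (T.U : Filter T.ι),
        ¬ Est (T.C i) ((T.C i).D (T.C i).z * ψ i) (P i) := by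
      filter_upwards [hcon] with i hi
      apply hP
      push Not at hi
      exact hi
    obtain ⟨dx, dz, hy, hdx, hdz, hnx, hnz⟩ := hψ P
    have h1 : ∀ᶠ i in (T.U : Filter T.ι), (P i).Ge (-((T.C i).cp (P i) : ℤ) -
        2 * max 0 (-(P i).ord (T.C i).x) - 2 * max 0 (-(P i).ord (T.C i).z))
        ((T.C i).D (T.C i).z * ψ i) := by
      filter_upwards [hy, hdx, hdz] with i h2 h3 h4
      rw [h2]
      have h5 := dge_ge (P i) ((T.C i).bp.dge (P i)) (T.C i).x
      have h6 := dge_ge (P i) ((T.C i).bp.dge (P i)) (T.C i).z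
      exact (h3.mul' h6 (by omega)).sub (h4.mul' h5 (by omega))
    have h2 : ∀ᶠ i in (T.U : Filter T.ι), P i ∈ (T.C i).nodes ∧
        ¬ (P i).Ge 1 ((T.C i).D (T.C i).z * ψ i) := by
      filter_upwards [h1, hP'] with i h3 h4
      by_contra h5
      exact h4 ⟨h3, fun h6 => by_contra fun h7 => h5 ⟨h6, h7⟩⟩
    -- the node is fixed
    have h3 : ∃ (l : Fin N₁) (j : Fin N₂), ∀ᶠ i in (T.U : Filter T.ι), (T.C i).Nd l j (P i) := by
      by_contra h4
      push Not at h4
      have h5 : ∀ l j, ∀ᶠ i in (T.U : Filter T.ι), ¬ (T.C i).Nd l j (P i) := h4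
      have h6 : ∀ᶠ i in (T.U : Filter T.ι), ∀ l j, ¬ (T.C i).Nd l j (P i) := by
        rw [eventually_all]
        intro l
        rw [eventually_all]
        exact h5 l
      obtain ⟨i, ⟨⟨l, j, h7⟩, _⟩, h8⟩ := (h2.and h6).exists
      exact h8 l j h7
    obtain ⟨l, j, hlj⟩ := h3
    have h4 := hnx (a l) (by
      filter_upwards [hlj] with i hi
      have h5 : (P i).Ge ((P i).ord ((T.C i).x - algebraMap k (T.C i).E (a l)))
        ((T.C i).x - algebraMap k (T.C i).E (a l)) := (P i).ge_ord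
      rwa [hi.2.1] at h5)
    have h5 := hnz (b j) (by
      filter_upwards [hlj] with i hi
      have h5 : (P i).Ge ((P i).ord ((T.C i).z - algebraMap k (T.C i).E (b j)))
        ((T.C i).z - algebraMap k (T.C i).E (b j)) := (P i).ge_ord
      rwa [hi.2.2] at h5)
    obtain ⟨i, ⟨⟨⟨h6, h7⟩, h8⟩, h9⟩, h10⟩ :=
      ((((h2.and h4).and h5).and hlj).and hy).exists
    apply h6.2
    rw [h10]
    have h11 : (P i).Ge 0 (T.C i).x := by
      have h12 : (P i).Ge ((P i).ord ((T.C i).x - algebraMap k (T.C i).E (a l)))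
        ((T.C i).x - algebraMap k (T.C i).E (a l)) := (P i).ge_ord
      rw [h9.2.1] at h12
      exact (P i).ge_zero_of_res h12
    have h13 : (P i).Ge 0 (T.C i).z := by
      have h12 : (P i).Ge ((P i).ord ((T.C i).z - algebraMap k (T.C i).E (b j)))
        ((T.C i).z - algebraMap k (T.C i).E (b j)) := (P i).ge_ord
      rw [h9.2.2] at h12
      exact (P i).ge_zero_of_res h12
    exact (h7.mul' (h9.1.1 _ h13) (by omega)).sub (h8.mul' (h9.1.1 _ h11) (by omega))
  -- the end
  obtain ⟨i, h1, h2⟩ := (hcl.and hψ0).exists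
  obtain ⟨h3, _, _, _, h5, _⟩ := hnod a b ha hb (T.C i)
  exact count (T.C i) h3 (h5 32 le_rfl hN₁ hN₂) (mul_ne_zero (T.C i).dz h2) h1

end Pool.Agent.PPZ.H67
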